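import Mathlib
import Pool.Agent.Lib.MP_cf7718_co.Defs
import Pool.Agent.Lib.MP_d2470a_co.MainLow
import Pool.Agent.Lib.MP_d2470a_co.MainUp

open scoped ENNReal
open Pool.Agent.Lib.MP_cf7718_co

namespace Pool.Agent.Results.MP_d2470a_co.ThresholdWindow

/-- `A(G)`: the average of the effective resistances over the pairs `x < y` of distinct vertices
(`∞` if some of them is `∞`, that is if `G` is disconnected). -/
noncomputable def avg {n : ℕ} (G : MGraph n) : ℝ≥0∞ :=
  (∑ x, ∑ y, if x < y then G.effRes x y else 0) / (n.choose 2 : ℕ)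

/-- `G` is optimal for `n` and `α`: at most `α n / 2` edges, and `A(G)` is minimal among all
multigraphs on `n` vertices with at most `α n / 2` edges. -/
def Optimal {n : ℕ} (α : ℝ) (G : MGraph n) : Prop :=
  (G.numEdges : ℝ) ≤ α * n / 2 ∧
    ∀ G' : MGraph n, (G'.numEdges : ℝ) ≤ α * n / 2 → avg G ≤ avg G'

/-- The degree of `v`, edges counted with multiplicity. -/
def degree {n : ℕ} (G : MGraph n) (v : Fin n) : ℕ := ∑ y, G.mult v y

theorem isOpt_of_optimal {n : ℕ} {α : ℝ} {G : MGraph n} (hn : 2 ≤ n) (hG : Optimal α G) :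
    MPd2470a.IsOpt α G := by
  have hc0 : ((n.choose 2 : ℕ) : ℝ≥0∞) ≠ 0 := by
    have : 0 < n.choose 2 := Nat.choose_pos hn
    exact_mod_cast this.ne'
  have hct : ((n.choose 2 : ℕ) : ℝ≥0∞) ≠ ⊤ := ENNReal.natCast_ne_top _
  refine ⟨hG.1, fun G' hG' => ?_⟩
  have h1 := hG.2 G' hG'
  unfold avg at h1
  have h4 := mul_le_mul_left h1 ((n.choose 2 : ℕ) : ℝ≥0∞)
  rw [ENNReal.div_mul_cancel hc0 hct, ENNReal.div_mul_cancel hc0 hct] at h4
  exact h4

/-- The two halves of the threshold statement outside the window `(3, 7/2)`: for `2 ≤ α ≤ 3` and all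
large `n` every optimal graph has a vertex of degree at least `n / 100`, and for every `α ≥ 7/2`
every vertex of every optimal graph has degree at most `C √n`. -/
theorem result :
    (∃ N : ℕ, ∀ n : ℕ, N ≤ n → ∀ α : ℝ, 2 ≤ α → α ≤ 3 → ∀ G : MGraph n, Optimal α G →
      ∃ v : Fin n, (n : ℝ) / 100 ≤ degree G v) ∧
    (∀ α : ℝ, 7 / 2 ≤ α → ∃ C : ℝ, ∀ (n : ℕ) (G : MGraph n), Optimal α G → ∀ v : Fin n,
      (degree G v : ℝ) ≤ C * √(n : ℝ)) := by
  refine ⟨?_, fun α hα => ?_⟩
  · obtain ⟨N, hN⟩ := MPd2470a.main_low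
    refine ⟨max N 2, fun n hn α h2 h3 G hG => ?_⟩
    exact hN n ((le_max_left _ _).trans hn) α h2 h3 G
      (isOpt_of_optimal ((le_max_right _ _).trans hn) hG)
  · obtain ⟨C, hC⟩ := MPd2470a.main_up hα
    refine ⟨max C 0, fun n G hG v => ?_⟩
    rcases Nat.lt_or_ge n 2 with hn | hn
    · have h0 : degree G v = 0 := by
        unfold degree
        refine Finset.sum_eq_zero fun y _ => ?_
        have : y = v := by
          apply Fin.ext
          have := y.2
          have := v.2
          omega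
        rw [this, G.loopless]
      rw [h0]
      have : (0 : ℝ) ≤ max C 0 := le_max_right _ _
      push_cast
      positivity
    · have h2 := hC n G (isOpt_of_optimal hn hG) v
      have h3 : C * √(n : ℝ) ≤ max C 0 * √(n : ℝ) :=
        mul_le_mul_of_nonneg_right (le_max_left _ _) (Real.sqrt_nonneg _)
      exact h2.trans h3

end Pool.Agent.Results.MP_d2470a_co.ThresholdWindow
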